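import Pool.Agent.Lib_helper53.PIB.Words

set_option autoImplicit false

namespace Pool.Agent.Lib_helper53.PIB

/-- base `b` digits of the fractional part of `ξ` -/
noncomputable def dig (ξ : ℝ) (b : ℕ) (i : ℕ) : ℕ := ⌊ξ * (b : ℝ) ^ (i + 1)⌋₊ % b

theorem dig_lt (ξ : ℝ) {b : ℕ} (hb : 2 ≤ b) (i : ℕ) : dig ξ b i < b := Nat.mod_lt _ (by omega)

theorem floor_div_pow (ξ : ℝ) {b : ℕ} (hb : 2 ≤ b) (j t : ℕ) :
    ⌊ξ * (b : ℝ) ^ j⌋₊ = ⌊ξ * (b : ℝ) ^ (j + t)⌋₊ / b ^ t := by
  rw [← Nat.floor_div_natCast]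
  congr 1
  have hb0 : (b : ℝ) ≠ 0 := by
    have : 0 < b := by omega
    positivity
  push_cast
  rw [pow_add]
  field_simp

theorem nep_dig {ξ : ℝ} (h0 : 0 < ξ) (hξ : Irrational ξ) {b : ℕ} (hb : 2 ≤ b) :
    NEP (dig ξ b) := by
  intro N T hT
  by_contra hcon
  push Not at hcon
  set n : ℕ → ℕ := fun j => ⌊ξ * (b : ℝ) ^ j⌋₊ with hn
  have hstep : ∀ j, n (j + 1) = b * n j + dig ξ b j := by
    intro j
    have h1 : n j = n (j + 1) / b := by
      have := floor_div_pow ξ hb j 1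
      simpa [hn] using this
    have h2 : dig ξ b j = n (j + 1) % b := rfl
    rw [h1, h2]
    exact (Nat.div_add_mod _ _).symm
  set D : ℤ := (n (N + T) : ℤ) - n N with hD
  have hDs : ∀ s, (n (N + s + T) : ℤ) - n (N + s) = (b : ℤ) ^ s * D := by
    intro s
    induction s with
    | zero => simp [hD]
    | succ s ih =>
      have e1 : n (N + (s + 1) + T) = b * n (N + s + T) + dig ξ b (N + s + T) := by
        rw [show N + (s + 1) + T = (N + s + T) + 1 by omega]
        exact hstep _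
      have e2 : n (N + (s + 1)) = b * n (N + s) + dig ξ b (N + s) := by
        rw [show N + (s + 1) = (N + s) + 1 by omega]
        exact hstep _
      have e3 : dig ξ b (N + s + T) = dig ξ b (N + s) := hcon (N + s) (by omega)
      rw [e1, e2, e3]
      push_cast
      rw [pow_succ]
      linear_combination (b : ℤ) * ih
  have hfl : ∀ j, |ξ * (b : ℝ) ^ j - n j| ≤ 1 := by
    intro j
    have hp : 0 ≤ ξ * (b : ℝ) ^ j := by positivity
    have h1 := Nat.floor_le hp
    have h2 := Nat.lt_floor_add_one (ξ * (b : ℝ) ^ j)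
    rw [abs_le]
    constructor
    · simp only [hn]; linarith
    · simp only [hn]; linarith
  have hb1 : (1 : ℝ) < b := by
    have : (2 : ℝ) ≤ b := by exact_mod_cast hb
    linarith
  have hbp : ∀ s : ℕ, 0 < (b : ℝ) ^ s := fun s => by positivity
  have key : ∀ s : ℕ, |ξ * (b : ℝ) ^ N * ((b : ℝ) ^ T - 1) - D| ≤ 2 / (b : ℝ) ^ s := by
    intro s
    have h1 := hfl (N + s + T)
    have h2 := hfl (N + s)
    have h3 : ((n (N + s + T) : ℝ) - n (N + s)) = (b : ℝ) ^ s * D := by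
      have := hDs s
      exact_mod_cast this
    have habs : |ξ * (b : ℝ) ^ N * ((b : ℝ) ^ T - 1) - D| * (b : ℝ) ^ s =
        |(ξ * (b : ℝ) ^ N * ((b : ℝ) ^ T - 1) - D) * (b : ℝ) ^ s| := by
      rw [abs_mul, abs_of_pos (hbp s)]
    rw [le_div_iff₀ (hbp s), habs]
    have h4 : (ξ * (b : ℝ) ^ N * ((b : ℝ) ^ T - 1) - D) * (b : ℝ) ^ s =
        (ξ * (b : ℝ) ^ (N + s + T) - n (N + s + T)) - (ξ * (b : ℝ) ^ (N + s) - n (N + s)) := by
      rw [pow_add, pow_add]
      linear_combination h3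
    rw [h4]
    refine (abs_sub _ _).trans ?_
    linarith
  have hz : ξ * (b : ℝ) ^ N * ((b : ℝ) ^ T - 1) - D = 0 := by
    by_contra hne
    have hpos : 0 < |ξ * (b : ℝ) ^ N * ((b : ℝ) ^ T - 1) - D| := abs_pos.2 hne
    obtain ⟨s, hs⟩ := pow_unbounded_of_one_lt
      (2 / |ξ * (b : ℝ) ^ N * ((b : ℝ) ^ T - 1) - D|) hb1
    have := key s
    rw [le_div_iff₀ (hbp s)] at this
    rw [div_lt_iff₀ hpos] at hs
    linarith [mul_comm (|ξ * (b : ℝ) ^ N * ((b : ℝ) ^ T - 1) - D|) ((b : ℝ) ^ s)]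
  have hden : ((b : ℝ) ^ N * ((b : ℝ) ^ T - 1)) ≠ 0 := by
    have h1 : 1 < (b : ℝ) ^ T := one_lt_pow₀ hb1 (by omega)
    have h2 := hbp N
    have : 0 < (b : ℝ) ^ N * ((b : ℝ) ^ T - 1) := mul_pos h2 (by linarith)
    exact this.ne'
  apply hξ
  refine ⟨(D : ℚ) / ((b : ℚ) ^ N * ((b : ℚ) ^ T - 1)), ?_⟩
  push_cast
  rw [div_eq_iff hden]
  linarith

theorem modpow_iff {a : ℕ} (ha : 2 ≤ a) (k M M' : ℕ) :
    M % a ^ k = M' % a ^ k ↔ ∀ s < k, M / a ^ s % a = M' / a ^ s % a := by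
  induction k with
  | zero => simp [Nat.mod_one]
  | succ k ih =>
    have hp : 0 < a ^ k := by positivity
    constructor
    · intro h s hs
      have h1 : M % a ^ k = M' % a ^ k := by
        have hd : a ^ k ∣ a ^ (k + 1) := pow_dvd_pow _ (Nat.le_succ k)
        rw [← Nat.mod_mod_of_dvd M hd, h, Nat.mod_mod_of_dvd M' hd]
      rcases Nat.lt_succ_iff_lt_or_eq.1 hs with h2 | h2
      · exact ih.1 h1 s h2
      · subst h2
        rw [Nat.mod_pow_succ, Nat.mod_pow_succ, h1] at h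
        exact Nat.eq_of_mul_eq_mul_left hp (Nat.add_left_cancel h)
    · intro h
      rw [Nat.mod_pow_succ, Nat.mod_pow_succ, ih.2 (fun s hs => h s (by omega)), h k (by omega)]

theorem dig_pow_iff (ξ : ℝ) {a : ℕ} (ha : 2 ≤ a) {k : ℕ} (_hk : 0 < k) (i i' : ℕ) :
    dig ξ (a ^ k) i = dig ξ (a ^ k) i' ↔
      ∀ t < k, dig ξ a (k * i + t) = dig ξ a (k * i' + t) := by
  have hM : ∀ i t, t < k → dig ξ a (k * i + t) =
      ⌊ξ * ((a ^ k : ℕ) : ℝ) ^ (i + 1)⌋₊ / a ^ (k - 1 - t) % a := by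
    intro i t ht
    unfold dig
    rw [floor_div_pow ξ ha (k * i + t + 1) (k - 1 - t)]
    have e : k * i + t + 1 + (k - 1 - t) = k * (i + 1) := by
      rw [Nat.mul_add, Nat.mul_one]
      omega
    rw [e, pow_mul]
    push_cast
    rfl
  unfold dig at hM ⊢
  rw [modpow_iff ha]
  constructor
  · intro h t ht
    rw [hM i t ht, hM i' t ht]
    exact h _ (by omega)
  · intro h s hs
    have := h (k - 1 - s) (by omega)
    rw [hM i _ (by omega), hM i' _ (by omega)] at this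
    rw [show k - 1 - (k - 1 - s) = s by omega] at this
    exact this

theorem fac_pow_iff (ξ : ℝ) {a : ℕ} (ha : 2 ≤ a) {k : ℕ} (hk : 0 < k) (n q q' : ℕ) :
    fac (dig ξ (a ^ k)) n q = fac (dig ξ (a ^ k)) n q' ↔
      fac (dig ξ a) (k * n) (k * q) = fac (dig ξ a) (k * n) (k * q') := by
  rw [fac_eq_iff, fac_eq_iff]
  constructor
  · intro h r hr
    have hrk : r / k < n := by
      rw [Nat.div_lt_iff_lt_mul hk]
      rwa [Nat.mul_comm] at hr
    have h1 := (dig_pow_iff ξ ha hk _ _).1 (h (r / k) hrk) (r % k) (Nat.mod_lt _ hk)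
    have e : ∀ q, k * (q + r / k) + r % k = k * q + r := by
      intro q
      rw [Nat.mul_add, Nat.add_assoc, Nat.div_add_mod]
    rw [e, e] at h1
    exact h1
  · intro h t ht
    rw [dig_pow_iff ξ ha hk]
    intro s hs
    have h1 := h (k * t + s) (by
      calc k * t + s < k * t + k := by omega
        _ = k * (t + 1) := by ring
        _ ≤ k * n := Nat.mul_le_mul_left k ht)
    rw [show ∀ q, k * (q + t) + s = k * q + (k * t + s) from fun q => by ring,
      show ∀ q, k * (q + t) + s = k * q + (k * t + s) from fun q => by ring]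
    exact h1

theorem qcpx_le_pow (ξ : ℝ) {a : ℕ} (ha : 2 ≤ a) {k : ℕ} (hk : 0 < k) (n : ℕ) :
    qcpx (dig ξ a) k (k * n) ≤ k * cpx (dig ξ (a ^ k)) (n + 1) := by
  classical
  have hak : 2 ≤ a ^ k := le_trans ha (Nat.le_self_pow (by omega) a)
  have hpos : ∀ f : Set.range (cfac (dig ξ a) k (k * n)), ∃ i, cfac (dig ξ a) k (k * n) i = f.1 :=
    fun f => f.2
  choose q hq using hpos
  have : Finite (Set.range (fac (dig ξ (a ^ k)) (n + 1))) :=
    (fin_range (dig_lt ξ hak) (n + 1)).to_subtype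
  let Φ : Set.range (cfac (dig ξ a) k (k * n)) →
      Fin k × Set.range (fac (dig ξ (a ^ k)) (n + 1)) :=
    fun f => (⟨q f % k, Nat.mod_lt _ hk⟩, ⟨fac (dig ξ (a ^ k)) (n + 1) (q f / k), ⟨_, rfl⟩⟩)
  have hΦ : Function.Injective Φ := by
    intro f f' h
    have h1 : q f % k = q f' % k := congrArg (fun z => (z.1 : Fin k).1) h
    have h2 : fac (dig ξ (a ^ k)) (n + 1) (q f / k) = fac (dig ξ (a ^ k)) (n + 1) (q f' / k) :=
      congrArg (fun z => (z.2).1) h
    rw [fac_pow_iff ξ ha hk] at h2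
    have h3 : fac (dig ξ a) (k * n) (k * (q f / k) + q f % k) =
        fac (dig ξ a) (k * n) (k * (q f' / k) + q f % k) := by
      apply fac_shift _ h2
      have := Nat.mod_lt (q f) hk
      rw [Nat.mul_add, Nat.mul_one]
      omega
    rw [Nat.div_add_mod, h1, Nat.div_add_mod] at h3
    apply Subtype.ext
    rw [← hq f, ← hq f']
    unfold cfac
    rw [h1, h3]
  have hle := Nat.card_le_card_of_injective Φ hΦ
  rw [Nat.card_prod, Nat.card_coe_set_eq, Nat.card_coe_set_eq, Nat.card_eq_fintype_card,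
    Fintype.card_fin] at hle
  exact hle

theorem pow_le_qcpx (ξ : ℝ) {a : ℕ} (ha : 2 ≤ a) {k : ℕ} (hk : 0 < k) (n : ℕ) :
    k * cpx (dig ξ (a ^ k)) n ≤ qcpx (dig ξ a) k (k * (n + 1)) + k := by
  classical
  have hak : 2 ≤ a ^ k := le_trans ha (Nat.le_self_pow (by omega) a)
  set D := dig ξ (a ^ k) with hD
  set X : Set (Fin n → ℕ) := (fac D n) '' Set.Ici 1 with hX
  have hXf : X.Finite := (fin_range (dig_lt ξ hak) n).subset (by
    rintro _ ⟨i, _, rfl⟩
    exact ⟨i, rfl⟩)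
  have h1 : cpx D n ≤ X.ncard + 1 := by
    have hsub : Set.range (fac D n) ⊆ insert (fac D n 0) X := by
      rintro _ ⟨i, rfl⟩
      rcases Nat.eq_zero_or_pos i with h | h
      · subst h; exact Or.inl rfl
      · exact Or.inr ⟨i, h, rfl⟩
    exact (Set.ncard_le_ncard hsub (hXf.insert _)).trans (Set.ncard_insert_le _ _)
  have hpos : ∀ f : X, ∃ i, 1 ≤ i ∧ fac D n i = f.1 := fun f => f.2
  choose q hq1 hq2 using hpos
  have : Finite (Set.range (cfac (dig ξ a) k (k * (n + 1)))) :=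
    (fin_crange (dig_lt ξ ha) hk _).to_subtype
  have : Finite X := hXf.to_subtype
  let Φ : Fin k × X → Set.range (cfac (dig ξ a) k (k * (n + 1))) :=
    fun p => ⟨cfac (dig ξ a) k (k * (n + 1)) (k * (q p.2 - 1) + p.1), ⟨_, rfl⟩⟩
  have hΦ : Function.Injective Φ := by
    rintro ⟨c, f⟩ ⟨c', f'⟩ h
    have h1 : (k * (q f - 1) + c) % k = (k * (q f' - 1) + c') % k := congrArg (fun z => z.1.1) h
    rw [Nat.mul_add_mod, Nat.mul_add_mod, Nat.mod_eq_of_lt c.2, Nat.mod_eq_of_lt c'.2] at h1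
    have hcc : c = c' := Fin.ext h1
    subst hcc
    have h2 : fac (dig ξ a) (k * (n + 1)) (k * (q f - 1) + c) =
        fac (dig ξ a) (k * (n + 1)) (k * (q f' - 1) + c) := congrArg (fun z => z.1.2) h
    have h3 : fac (dig ξ a) (k * n) (k * (q f - 1) + c + (k - c)) =
        fac (dig ξ a) (k * n) (k * (q f' - 1) + c + (k - c)) := by
      apply fac_shift _ h2
      rw [Nat.mul_add, Nat.mul_one]
      omega
    have e : ∀ f : X, k * (q f - 1) + c + (k - c) = k * q f := by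
      intro f
      have h5 := hq1 f
      have h6 : k * q f = k * (q f - 1) + k := by
        conv_lhs => rw [show q f = (q f - 1) + 1 by omega]
        rw [Nat.mul_add, Nat.mul_one]
      have := c.2
      omega
    rw [e, e, ← fac_pow_iff ξ ha hk] at h3
    have hff : f = f' := by
      apply Subtype.ext
      rw [← hq2 f, ← hq2 f']
      exact h3
    rw [hff]
  have hle := Nat.card_le_card_of_injective Φ hΦ
  rw [Nat.card_prod, Nat.card_coe_set_eq, Nat.card_coe_set_eq, Nat.card_eq_fintype_card,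
    Fintype.card_fin] at hle
  have h2 : k * cpx D n ≤ k * (X.ncard + 1) := Nat.mul_le_mul_left k h1
  rw [Nat.mul_add, Nat.mul_one] at h2
  unfold qcpx
  omega

theorem cpx_mono {w : ℕ → ℕ} {b : ℕ} (hb : ∀ i, w i < b) (hn : NEP w) {m m' : ℕ} (h : m ≤ m') :
    cpx w m + (m' - m) ≤ cpx w m' := by
  induction m', h using Nat.le_induction with
  | base => simp
  | succ m' hm ih =>
    have := cpx_succ hb hn m'
    omega

theorem cpx_le_qcpx {w : ℕ → ℕ} {b : ℕ} (hb : ∀ i, w i < b) {k : ℕ} (hk : 0 < k) (m : ℕ) :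
    cpx w m ≤ qcpx w k m := by
  unfold cpx qcpx
  have : Set.range (fac w m) = Prod.snd '' Set.range (cfac w k m) := by
    ext f
    constructor
    · rintro ⟨i, rfl⟩
      exact ⟨_, ⟨i, rfl⟩, rfl⟩
    · rintro ⟨_, ⟨i, rfl⟩, rfl⟩
      exact ⟨i, rfl⟩
  rw [this]
  exact Set.ncard_image_le (fin_crange hb hk m)

/-- bounded excess: eventually `n + c` -/
theorem eventually_eq {w : ℕ → ℕ} {b : ℕ} (hb : ∀ i, w i < b) (hn : NEP w)
    (h : ∃ C, ∀ n, cpx w n ≤ n + C) : ∃ c n₀, ∀ n, n₀ ≤ n → cpx w n = n + c := by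
  classical
  set c := Nat.find h with hc
  have h1 : ∀ n, cpx w n ≤ n + c := Nat.find_spec h
  have hc0 : 0 < c := by
    have := h1 0
    rw [cpx_zero] at this
    omega
  have h2 : ¬ ∀ n, cpx w n ≤ n + (c - 1) := Nat.find_min h (by omega)
  push Not at h2
  obtain ⟨n₀, hn₀⟩ := h2
  refine ⟨c, n₀, fun n hn' => ?_⟩
  have h3 := cpx_mono hb hn hn'
  have h4 := h1 n
  omega

theorem tendsto_or {w : ℕ → ℕ} {b : ℕ} (hb : ∀ i, w i < b) (hn : NEP w)
    (h : ¬ ∃ C, ∀ n, cpx w n ≤ n + C) :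
    Filter.Tendsto (fun n : ℕ => (cpx w n : ℤ) - (n : ℤ)) Filter.atTop Filter.atTop := by
  push Not at h
  apply Filter.tendsto_atTop_atTop_of_monotone
  · apply monotone_nat_of_le_succ
    intro n
    have := cpx_succ hb hn n
    push_cast
    omega
  · intro z
    obtain ⟨n, hn'⟩ := h z.toNat
    refine ⟨n, ?_⟩
    omega

theorem lcm_modEq {k k' i j : ℕ} (h : i ≡ j [MOD k]) (h' : i ≡ j [MOD k']) :
    i ≡ j [MOD Nat.lcm k k'] := by
  rcases le_total i j with hij | hij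
  · rw [Nat.modEq_iff_dvd' hij] at h h' ⊢
    exact Nat.lcm_dvd h h'
  · have h1 := h.symm
    have h2 := h'.symm
    rw [Nat.modEq_iff_dvd' hij] at h1 h2
    exact ((Nat.modEq_iff_dvd' hij).2 (Nat.lcm_dvd h1 h2)).symm

theorem main {ξ : ℝ} (h0 : 0 < ξ) (hξ : Irrational ξ) {a : ℕ} (ha : 2 ≤ a) :
    (∀ k, 1 ≤ k → Filter.Tendsto (fun n : ℕ => (cpx (dig ξ (a ^ k)) n : ℤ) - (n : ℤ))
      Filter.atTop Filter.atTop) ∨
    ∃ g, 1 ≤ g ∧ ∀ k, 1 ≤ k →
      (k ∣ g → ∃ c n₀, ∀ n, n₀ ≤ n → cpx (dig ξ (a ^ k)) n = n + c) ∧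
      (¬ k ∣ g → ∀ n, 1 ≤ n → 2 * n - 1 ≤ cpx (dig ξ (a ^ k)) n) := by
  classical
  have hb := dig_lt ξ ha
  have hn := nep_dig h0 hξ ha
  have hak : ∀ k, 1 ≤ k → 2 ≤ a ^ k := fun k hk => le_trans ha (Nat.le_self_pow (by omega) a)
  by_cases hA : ∃ C, ∀ n, cpx (dig ξ a) n ≤ n + C
  · right
    obtain ⟨c, m₀, hc⟩ := eventually_eq hb hn hA
    have hU : ∀ m, m₀ ≤ m → Uniq (dig ξ a) m := by
      intro m hm
      apply uniq_of_cpx hb
      rw [hc (m + 1) (by omega), hc m hm]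
      omega
    set S : ℕ → Prop := fun k => ∃ N, Sgl (dig ξ a) k m₀ N with hS
    have hS1 : S 1 := ⟨0, fun i j _ _ _ => Nat.modEq_one⟩
    have hSle : ∀ k, S k → k ≤ cpx (dig ξ a) m₀ := by
      rintro k ⟨N, h⟩
      exact sgl_le hb h
    have hSl : ∀ k k', S k → S k' → S (Nat.lcm k k') := by
      rintro k k' ⟨N, h⟩ ⟨N', h'⟩
      exact ⟨max N N', fun i j hi hj he =>
        lcm_modEq (h i j (le_trans (le_max_left _ _) hi) (le_trans (le_max_left _ _) hj) he)
          (h' i j (le_trans (le_max_right _ _) hi) (le_trans (le_max_right _ _) hj) he)⟩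
    set g := Nat.findGreatest S (cpx (dig ξ a) m₀) with hg
    have hSg : S g := Nat.findGreatest_spec (hSle 1 hS1) hS1
    have hg1 : 1 ≤ g := Nat.le_findGreatest (hSle 1 hS1) hS1
    refine ⟨g, hg1, fun k hk => ⟨fun hkg => ?_, fun hkg => ?_⟩⟩
    · obtain ⟨N, hN⟩ := hSg
      have hk' : Sgl (dig ξ a) k m₀ N := fun i j hi hj he => (hN i j hi hj he).of_dvd hkg
      apply eventually_eq (dig_lt ξ (hak k hk)) (nep_dig h0 hξ (hak k hk))
      refine ⟨m₀ + c + N + 2 + cpx (dig ξ (a ^ k)) m₀, fun n => ?_⟩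
      by_cases hnm : m₀ ≤ n
      · have h1 := pow_le_qcpx ξ ha (by omega : 0 < k) n
        have h2 : m₀ ≤ k * (n + 1) := by
          calc m₀ ≤ 1 * (n + 1) := by omega
            _ ≤ k * (n + 1) := Nat.mul_le_mul_right _ hk
        have h3 := qcpx_le hb hk' h2
        have h4 := hc _ h2
        have h5 : k * cpx (dig ξ (a ^ k)) n ≤ k * (n + 1 + 1 + c + N) := by
          calc k * cpx (dig ξ (a ^ k)) n ≤ k * (n + 1) + c + N + k := by omega
            _ ≤ k * (n + 1) + k * c + k * N + k * 1 := by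
                have e1 : c ≤ k * c := Nat.le_mul_of_pos_left c (by omega)
                have e2 : N ≤ k * N := Nat.le_mul_of_pos_left N (by omega)
                omega
            _ = k * (n + 1 + 1 + c + N) := by ring
        have h6 := Nat.le_of_mul_le_mul_left h5 (by omega : 0 < k)
        omega
      · have h7 := cpx_mono (dig_lt ξ (hak k hk)) (nep_dig h0 hξ (hak k hk))
          (show n ≤ m₀ by omega)
        omega
    · have hns : ∀ N, ¬ Sgl (dig ξ a) k m₀ N := by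
        intro N hN
        have h1 : S (Nat.lcm k g) := hSl k g ⟨N, hN⟩ hSg
        have h2 : Nat.lcm k g ≤ g := Nat.le_findGreatest (hSle _ h1) h1
        have h3 : g ∣ Nat.lcm k g := Nat.dvd_lcm_right k g
        have h4 : 0 < Nat.lcm k g := Nat.lcm_pos (by omega) (by omega)
        have h5 := Nat.le_of_dvd h4 h3
        have h6 : Nat.lcm k g = g := le_antisymm h2 h5
        exact hkg (h6 ▸ Nat.dvd_lcm_left k g)
      intro n hn1
      obtain ⟨m, rfl⟩ : ∃ m, n = m + 1 := ⟨n - 1, by omega⟩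
      have h1 := qcpx_ge hb hn hU (by omega : 0 < k) hns (k * m)
      have h2 := qcpx_le_pow ξ ha (by omega : 0 < k) m
      have h3 : k * (2 * m) < k * cpx (dig ξ (a ^ k)) (m + 1) := by
        calc k * (2 * m) = 2 * (k * m) := by ring
          _ < 2 * (k * m + 1) := by omega
          _ ≤ k * cpx (dig ξ (a ^ k)) (m + 1) := by omega
      have h4 := Nat.lt_of_mul_lt_mul_left h3
      omega
  · left
    intro k hk
    apply tendsto_or (dig_lt ξ (hak k hk)) (nep_dig h0 hξ (hak k hk))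
    rintro ⟨C, hC⟩
    apply hA
    refine ⟨k * (2 + C), fun m => ?_⟩
    have h1 : m ≤ k * (m / k + 1) := by
      have := Nat.lt_mul_div_succ m (by omega : 0 < k)
      omega
    have h2 : k * (m / k) ≤ m := Nat.mul_div_le m k
    have h3 := cpx_mono hb hn h1
    have h4 := cpx_le_qcpx hb (by omega : 0 < k) (k * (m / k + 1))
    have h5 := qcpx_le_pow ξ ha (by omega : 0 < k) (m / k + 1)
    have h6 : k * cpx (dig ξ (a ^ k)) (m / k + 1 + 1) ≤ k * (m / k + 1 + 1 + C) :=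
      Nat.mul_le_mul_left k (hC _)
    have h7 : k * (m / k + 1 + 1 + C) = k * (m / k) + k * (2 + C) := by ring
    omega

end Pool.Agent.Lib_helper53.PIB
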