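import Mathlib

set_option autoImplicit false

namespace Pool.Agent.Lib_helper53.PIB

/-- The factor of length `m` at position `i` of the word `w`. -/
def fac (w : ℕ → ℕ) (m : ℕ) (i : ℕ) : Fin m → ℕ := fun j => w (i + j)

/-- The number of factors of length `m`. -/
noncomputable def cpx (w : ℕ → ℕ) (m : ℕ) : ℕ := (Set.range (fac w m)).ncard

/-- Not eventually periodic. -/
def NEP (w : ℕ → ℕ) : Prop := ∀ N T, 0 < T → ∃ i, N ≤ i ∧ w (i + T) ≠ w i

theorem fac_eq_iff {w : ℕ → ℕ} {m i j : ℕ} :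
    fac w m i = fac w m j ↔ ∀ t < m, w (i + t) = w (j + t) := by
  constructor
  · intro h t ht
    have := congrFun h ⟨t, ht⟩
    simpa [fac] using this
  · intro h
    funext t
    simpa [fac] using h t t.2

theorem fac_mono {w : ℕ → ℕ} {m m' i j : ℕ} (hm : m' ≤ m) (h : fac w m i = fac w m j) :
    fac w m' i = fac w m' j := by
  rw [fac_eq_iff] at h ⊢
  intro t ht
  exact h t (by omega)

theorem fac_shift {w : ℕ → ℕ} {m m' i j s : ℕ} (hm : s + m' ≤ m) (h : fac w m i = fac w m j) :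
    fac w m' (i + s) = fac w m' (j + s) := by
  rw [fac_eq_iff] at h ⊢
  intro t ht
  have := h (s + t) (by omega)
  rw [← Nat.add_assoc, ← Nat.add_assoc] at this
  exact this

theorem fac_succ_iff {w : ℕ → ℕ} {m i j : ℕ} :
    fac w (m + 1) i = fac w (m + 1) j ↔ fac w m i = fac w m j ∧ w (i + m) = w (j + m) := by
  constructor
  · intro h
    exact ⟨fac_mono (Nat.le_succ m) h, (fac_eq_iff.1 h) m (Nat.lt_succ_self m)⟩
  · rintro ⟨h1, h2⟩
    rw [fac_eq_iff] at h1 ⊢
    intro t ht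
    rcases Nat.lt_succ_iff_lt_or_eq.1 ht with h | h
    · exact h1 t h
    · subst h; exact h2

theorem fin_range {w : ℕ → ℕ} {b : ℕ} (hb : ∀ i, w i < b) (m : ℕ) :
    (Set.range (fac w m)).Finite := by
  refine (Set.Finite.pi' (fun _ : Fin m => Set.finite_Iio b)).subset ?_
  rintro f ⟨i, rfl⟩
  intro j
  exact hb _

/-- Pigeonhole. -/
theorem exists_rep {w : ℕ → ℕ} {b : ℕ} (hb : ∀ i, w i < b) (m N : ℕ) :
    ∃ i j, N ≤ i ∧ i < j ∧ j ≤ N + cpx w m ∧ fac w m i = fac w m j := by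
  classical
  have hfin := fin_range hb m
  have hcard : hfin.toFinset.card < (Finset.range (cpx w m + 1)).card := by
    rw [Finset.card_range, ← Set.ncard_eq_toFinset_card _ hfin]
    exact Nat.lt_succ_self _
  obtain ⟨x, hx, y, hy, hne, he⟩ := Finset.exists_ne_map_eq_of_card_lt_of_maps_to hcard
    (f := fun s => fac w m (N + s)) (by
      intro s _
      simp)
  rw [Finset.mem_range] at hx hy
  rcases lt_or_gt_of_ne hne with h | h
  · exact ⟨N + x, N + y, by omega, by omega, by omega, he⟩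
  · exact ⟨N + y, N + x, by omega, by omega, by omega, he.symm⟩

/-- Two occurrences split somewhere. -/
theorem exists_split {w : ℕ → ℕ} (hn : NEP w) {m i j : ℕ} (hij : i < j)
    (h : fac w m i = fac w m j) :
    ∃ t, m ≤ t ∧ fac w t i = fac w t j ∧ w (i + t) ≠ w (j + t) := by
  classical
  have hex : ∃ s, w (i + s) ≠ w (j + s) := by
    obtain ⟨l, hl, hne⟩ := hn i (j - i) (by omega)
    refine ⟨l - i, ?_⟩
    have e1 : i + (l - i) = l := by omega
    have e2 : j + (l - i) = l + (j - i) := by omega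
    rw [e1, e2]
    exact fun hc => hne hc.symm
  refine ⟨Nat.find hex, ?_, ?_, Nat.find_spec hex⟩
  · by_contra hlt
    push Not at hlt
    exact Nat.find_spec hex (fac_eq_iff.1 h _ hlt)
  · rw [fac_eq_iff]
    intro t ht
    by_contra hc
    exact Nat.find_min hex ht hc

/-- Late right special factors of every length. -/
theorem exists_special {w : ℕ → ℕ} {b : ℕ} (hb : ∀ i, w i < b) (hn : NEP w) (m N : ℕ) :
    ∃ i j, N ≤ i ∧ N ≤ j ∧ fac w m i = fac w m j ∧ w (i + m) ≠ w (j + m) := by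
  obtain ⟨i, j, hi, hij, _, he⟩ := exists_rep hb m N
  obtain ⟨t, ht, h1, h2⟩ := exists_split hn hij he
  refine ⟨i + (t - m), j + (t - m), by omega, by omega, fac_shift (by omega) h1, ?_⟩
  have e1 : i + (t - m) + m = i + t := by omega
  have e2 : j + (t - m) + m = j + t := by omega
  rw [e1, e2]
  exact h2

/-- restriction to the first `m` letters -/
def res (m : ℕ) (f : Fin (m + 1) → ℕ) : Fin m → ℕ := fun j => f j.castSucc

theorem res_fac (w : ℕ → ℕ) (m i : ℕ) : res m (fac w (m + 1) i) = fac w m i := rfl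

theorem image_res (w : ℕ → ℕ) (m : ℕ) :
    res m '' Set.range (fac w (m + 1)) = Set.range (fac w m) := by
  ext f
  constructor
  · rintro ⟨_, ⟨i, rfl⟩, rfl⟩
    exact ⟨i, (res_fac w m i).symm⟩
  · rintro ⟨i, rfl⟩
    exact ⟨_, ⟨i, rfl⟩, res_fac w m i⟩

theorem cpx_succ {w : ℕ → ℕ} {b : ℕ} (hb : ∀ i, w i < b) (hn : NEP w) (m : ℕ) :
    cpx w m + 1 ≤ cpx w (m + 1) := by
  by_contra hlt
  push Not at hlt
  have h1 : (res m '' Set.range (fac w (m + 1))).ncard ≤ (Set.range (fac w (m + 1))).ncard :=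
    Set.ncard_image_le (fin_range hb (m + 1))
  have h2 : (res m '' Set.range (fac w (m + 1))).ncard = (Set.range (fac w (m + 1))).ncard := by
    refine le_antisymm h1 ?_
    rw [image_res]
    unfold cpx at hlt
    omega
  have hinj := Set.injOn_of_ncard_image_eq h2 (fin_range hb (m + 1))
  obtain ⟨i, j, _, _, he, hne⟩ := exists_special hb hn m 0
  have := hinj ⟨i, rfl⟩ ⟨j, rfl⟩ (by rw [res_fac, res_fac]; exact he)
  exact hne (fac_succ_iff.1 this).2

theorem cpx_zero (w : ℕ → ℕ) : cpx w 0 = 1 := by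
  unfold cpx
  rw [Set.ncard_eq_one]
  refine ⟨fac w 0 0, ?_⟩
  ext f
  constructor
  · intro _
    exact Subsingleton.elim _ _
  · intro h
    rw [Set.mem_singleton_iff] at h
    exact ⟨0, h.symm⟩

theorem cpx_ge {w : ℕ → ℕ} {b : ℕ} (hb : ∀ i, w i < b) (hn : NEP w) (m : ℕ) :
    m + 1 ≤ cpx w m := by
  induction m with
  | zero => rw [cpx_zero]
  | succ m ih =>
    have := cpx_succ hb hn m
    omega

/-- Uniqueness of the right special factor. -/
def Uniq (w : ℕ → ℕ) (m : ℕ) : Prop :=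
  ∀ i j i' j', fac w m i = fac w m j → w (i + m) ≠ w (j + m) → fac w m i' = fac w m j' →
    w (i' + m) ≠ w (j' + m) →
    (fac w (m + 1) i = fac w (m + 1) i' ∧ fac w (m + 1) j = fac w (m + 1) j') ∨
    (fac w (m + 1) i = fac w (m + 1) j' ∧ fac w (m + 1) j = fac w (m + 1) i')

theorem uniq_aux {w : ℕ → ℕ} {b : ℕ} (hb : ∀ i, w i < b) {m : ℕ}
    (hc : cpx w (m + 1) = cpx w m + 1) {i j i' j' : ℕ} (h : fac w m i = fac w m j)
    (hne : w (i + m) ≠ w (j + m)) (h' : fac w m i' = fac w m j') (hne' : w (i' + m) ≠ w (j' + m)) :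
    fac w (m + 1) j = fac w (m + 1) i' ∨ fac w (m + 1) j = fac w (m + 1) j' := by
  classical
  set X := Set.range (fac w (m + 1)) with hX
  have hXf : X.Finite := fin_range hb (m + 1)
  have hbX : fac w (m + 1) j ∈ X := ⟨j, rfl⟩
  have hab : fac w (m + 1) i ≠ fac w (m + 1) j := fun hh => hne (fac_succ_iff.1 hh).2
  have himg : res m '' (X \ {fac w (m + 1) j}) = Set.range (fac w m) := by
    ext f
    constructor
    · rintro ⟨_, ⟨⟨s, rfl⟩, _⟩, rfl⟩
      exact ⟨s, (res_fac w m s).symm⟩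
    · rintro ⟨s, rfl⟩
      by_cases hs : fac w (m + 1) s = fac w (m + 1) j
      · refine ⟨fac w (m + 1) i, ⟨⟨i, rfl⟩, hab⟩, ?_⟩
        rw [res_fac, h]
        exact (fac_mono (Nat.le_succ m) hs).symm
      · exact ⟨fac w (m + 1) s, ⟨⟨s, rfl⟩, hs⟩, res_fac w m s⟩
  have hcard : (X \ {fac w (m + 1) j}).ncard = (Set.range (fac w m)).ncard := by
    have := Set.ncard_sdiff_singleton_add_one hbX hXf
    unfold cpx at hc
    rw [← hX] at hc
    omega
  have hinj : Set.InjOn (res m) (X \ {fac w (m + 1) j}) := by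
    apply Set.injOn_of_ncard_image_eq _ (hXf.subset Set.sdiff_subset)
    rw [himg, hcard]
  by_contra hcon
  push Not at hcon
  obtain ⟨hc1, hc2⟩ := hcon
  have hm1 : fac w (m + 1) i' ∈ X \ {fac w (m + 1) j} := ⟨⟨i', rfl⟩, fun hh => hc1 hh.symm⟩
  have hm2 : fac w (m + 1) j' ∈ X \ {fac w (m + 1) j} := ⟨⟨j', rfl⟩, fun hh => hc2 hh.symm⟩
  have := hinj hm1 hm2 (by rw [res_fac, res_fac]; exact h')
  exact hne' (fac_succ_iff.1 this).2

theorem uniq_of_cpx {w : ℕ → ℕ} {b : ℕ} (hb : ∀ i, w i < b) {m : ℕ}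
    (hc : cpx w (m + 1) = cpx w m + 1) : Uniq w m := by
  intro i j i' j' h hne h' hne'
  have hj := uniq_aux hb hc h hne h' hne'
  have hi := uniq_aux hb hc h.symm hne.symm h' hne'
  have hab : fac w (m + 1) i ≠ fac w (m + 1) j := fun hh => hne (fac_succ_iff.1 hh).2
  rcases hi with hi | hi
  · rcases hj with hj | hj
    · exact absurd (hi.trans hj.symm) hab
    · exact Or.inl ⟨hi, hj⟩
  · rcases hj with hj | hj
    · exact Or.inr ⟨hi, hj⟩
    · exact absurd (hi.trans hj.symm) hab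

/-- The factor occurs at arbitrarily large positions. -/
def Late (w : ℕ → ℕ) (m i : ℕ) : Prop := ∀ N, ∃ j, N ≤ j ∧ fac w m j = fac w m i

theorem exists_late {w : ℕ → ℕ} {b : ℕ} (hb : ∀ i, w i < b) (m : ℕ) :
    ∃ N, ∀ i, N ≤ i → Late w m i := by
  classical
  have hfin := fin_range hb m
  have hP : ∀ f : Fin m → ℕ, ∃ N, (∀ i, N ≤ i → fac w m i ≠ f) ∨
      (∀ N', ∃ i, N' ≤ i ∧ fac w m i = f) := by
    intro f
    by_cases h : ∀ N', ∃ i, N' ≤ i ∧ fac w m i = f
    · exact ⟨0, Or.inr h⟩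
    · push Not at h
      obtain ⟨N, hN⟩ := h
      exact ⟨N, Or.inl hN⟩
  choose Nf hNf using hP
  refine ⟨hfin.toFinset.sup Nf, fun i hi => ?_⟩
  have hmem : fac w m i ∈ hfin.toFinset := by simp
  have hle : Nf (fac w m i) ≤ i := le_trans (Finset.le_sup (f := Nf) hmem) hi
  rcases hNf (fac w m i) with h | h
  · exact absurd rfl (h i hle)
  · exact h

/-- Uniform recurrence. -/
theorem recurrent {w : ℕ → ℕ} {b : ℕ} (hb : ∀ i, w i < b) (hn : NEP w) {m₀ : ℕ}
    (hU : ∀ m, m₀ ≤ m → Uniq w m) {m i₀ : ℕ} (hm : m₀ ≤ m) (hl : Late w m i₀) :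
    ∃ B, ∀ l, ∃ s, s ≤ B ∧ fac w m (l + s) = fac w m i₀ := by
  classical
  obtain ⟨i, _, hi⟩ := hl 0
  obtain ⟨j, hij, hj⟩ := hl (i + 1)
  obtain ⟨t₁, ht₁, hs1, hs2⟩ := exists_split hn (show i < j by omega) (hi.trans hj.symm)
  refine ⟨cpx w t₁, fun l => ?_⟩
  have hex : ∃ L, l ≤ L ∧ fac w m L = fac w m i₀ := hl l
  set L := Nat.find hex with hL
  have hL1 : l ≤ L := (Nat.find_spec hex).1
  have hL2 : fac w m L = fac w m i₀ := (Nat.find_spec hex).2
  have hmin : ∀ s, l ≤ s → s < L → fac w m s ≠ fac w m i₀ := by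
    intro s hs1 hs2 hc
    exact Nat.find_min hex hs2 ⟨hs1, hc⟩
  by_cases hLB : L ≤ l + cpx w t₁
  · exact ⟨L - l, by omega, by rw [show l + (L - l) = L by omega]; exact hL2⟩
  exfalso
  push Not at hLB
  obtain ⟨i₂, j₂, hi2, hij2, hj2, he2⟩ := exists_rep hb t₁ l
  obtain ⟨t₂, ht₂, hr1, hr2⟩ := exists_split hn hij2 he2
  have hlt : t₂ + j₂ < L + m := by
    by_contra hge
    push Not at hge
    have h1 : fac w m (i₂ + (L - j₂)) = fac w m (j₂ + (L - j₂)) := fac_shift (by omega) hr1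
    rw [show j₂ + (L - j₂) = L by omega, hL2] at h1
    exact hmin _ (by omega) (by omega) h1
  have h3 : fac w t₁ (i₂ + (t₂ - t₁)) = fac w t₁ (j₂ + (t₂ - t₁)) := fac_shift (by omega) hr1
  have h4 : w (i₂ + (t₂ - t₁) + t₁) ≠ w (j₂ + (t₂ - t₁) + t₁) := by
    rw [show i₂ + (t₂ - t₁) + t₁ = i₂ + t₂ by omega, show j₂ + (t₂ - t₁) + t₁ = j₂ + t₂ by omega]
    exact hr2
  have h5 : fac w t₁ i = fac w t₁ (i₂ + (t₂ - t₁)) := by
    rcases hU t₁ (by omega) _ _ _ _ hs1 hs2 h3 h4 with h | h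
    · exact fac_mono (Nat.le_succ _) h.1
    · exact (fac_mono (Nat.le_succ _) h.1).trans h3.symm
  have h6 : fac w m (i₂ + (t₂ - t₁)) = fac w m i₀ := (fac_mono ht₁ h5).symm.trans hi
  exact hmin _ (by omega) (by omega) h6

/-- All occurrences beyond `N` of equal factors of length `m` are congruent mod `k`. -/
def Sgl (w : ℕ → ℕ) (k m N : ℕ) : Prop :=
  ∀ i j, N ≤ i → N ≤ j → fac w m i = fac w m j → i ≡ j [MOD k]

theorem sgl_down {w : ℕ → ℕ} {b : ℕ} (hb : ∀ i, w i < b) (hn : NEP w) {k m N : ℕ}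
    (hU : Uniq w m) (h : Sgl w k (m + 1) N) : Sgl w k m N := by
  intro i j hi hj he
  by_cases hx : w (i + m) = w (j + m)
  · exact h i j hi hj (fac_succ_iff.2 ⟨he, hx⟩)
  obtain ⟨i', j', hi', hj', he', hne'⟩ := exists_special hb hn (m + 1) N
  have h1 : i' ≡ j' [MOD k] := h i' j' hi' hj' he'
  have h2 : fac w m (i' + 1) = fac w m (j' + 1) := fac_shift (by omega) he'
  have h3 : w (i' + 1 + m) ≠ w (j' + 1 + m) := by
    rw [show i' + 1 + m = i' + (m + 1) by omega, show j' + 1 + m = j' + (m + 1) by omega]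
    exact hne'
  have h1' : i' + 1 ≡ j' + 1 [MOD k] := Nat.ModEq.add_right 1 h1
  rcases hU _ _ _ _ he hx h2 h3 with ⟨ha, hb'⟩ | ⟨ha, hb'⟩
  · have e1 := h i (i' + 1) hi (by omega) ha
    have e2 := h j (j' + 1) hj (by omega) hb'
    exact (e1.trans h1').trans e2.symm
  · have e1 := h i (j' + 1) hi (by omega) ha
    have e2 := h j (i' + 1) hj (by omega) hb'
    exact (e1.trans h1'.symm).trans e2.symm

theorem sgl_down_to {w : ℕ → ℕ} {b : ℕ} (hb : ∀ i, w i < b) (hn : NEP w) {k m₀ N : ℕ}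
    (hU : ∀ m, m₀ ≤ m → Uniq w m) (d : ℕ) (h : Sgl w k (m₀ + d) N) : Sgl w k m₀ N := by
  induction d with
  | zero => exact h
  | succ d ih => exact ih (sgl_down hb hn (hU _ (by omega)) h)

/-- One late factor all of whose occurrences beyond `N` are congruent is enough. -/
theorem sgl_of_single {w : ℕ → ℕ} {b : ℕ} (hb : ∀ i, w i < b) (hn : NEP w) {m₀ : ℕ}
    (hU : ∀ m, m₀ ≤ m → Uniq w m) {k m N i₀ : ℕ} (hl : Late w m i₀)
    (h : ∀ i, N ≤ i → fac w m i = fac w m i₀ → i ≡ i₀ [MOD k]) : Sgl w k m₀ N := by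
  obtain ⟨N₁, hN₁⟩ := exists_late hb (max m m₀)
  obtain ⟨i₁, hi₁, he₁⟩ := hl (max N N₁)
  have hl1 : Late w (max m m₀) i₁ := hN₁ i₁ (le_trans (le_max_right _ _) hi₁)
  have hc1 : i₁ ≡ i₀ [MOD k] := h i₁ (le_trans (le_max_left _ _) hi₁) he₁
  have h1 : ∀ i, N ≤ i → fac w (max m m₀) i = fac w (max m m₀) i₁ → i ≡ i₀ [MOD k] := by
    intro i hi he
    exact h i hi ((fac_mono (le_max_left _ _) he).trans he₁)
  obtain ⟨B, hB⟩ := recurrent hb hn hU (le_max_right m m₀) hl1
  have h2 : Sgl w k (B + max m m₀) N := by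
    intro i j hi hj he
    obtain ⟨s, hs, hes⟩ := hB i
    have hes' : fac w (max m m₀) (j + s) = fac w (max m m₀) i₁ :=
      (fac_shift (by omega) he).symm.trans hes
    have e1 := h1 (i + s) (by omega) hes
    have e2 := h1 (j + s) (by omega) hes'
    exact Nat.ModEq.add_right_cancel' s (e1.trans e2.symm)
  have h3 : B + max m m₀ = m₀ + (B + max m m₀ - m₀) := by
    have := le_max_right m m₀
    omega
  rw [h3] at h2
  exact sgl_down_to hb hn hU _ h2

theorem sgl_le {w : ℕ → ℕ} {b : ℕ} (hb : ∀ i, w i < b) {k m N : ℕ} (h : Sgl w k m N) :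
    k ≤ cpx w m := by
  obtain ⟨i, j, hi, hij, hj, he⟩ := exists_rep hb m N
  have h1 := h i j hi (by omega) he
  have h2 : k ∣ j - i := (Nat.modEq_iff_dvd' (by omega)).1 h1
  have h3 := Nat.le_of_dvd (by omega) h2
  omega

/-- factors together with the class of the position -/
def cfac (w : ℕ → ℕ) (k m i : ℕ) : ℕ × (Fin m → ℕ) := (i % k, fac w m i)

noncomputable def qcpx (w : ℕ → ℕ) (k m : ℕ) : ℕ := (Set.range (cfac w k m)).ncard

theorem fin_crange {w : ℕ → ℕ} {b : ℕ} (hb : ∀ i, w i < b) {k : ℕ} (hk : 0 < k) (m : ℕ) :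
    (Set.range (cfac w k m)).Finite := by
  refine ((Set.finite_Iio k).prod (fin_range hb m)).subset ?_
  rintro f ⟨i, rfl⟩
  exact ⟨Nat.mod_lt _ hk, ⟨i, rfl⟩⟩

theorem qcpx_ge {w : ℕ → ℕ} {b : ℕ} (hb : ∀ i, w i < b) (hn : NEP w) {m₀ : ℕ}
    (hU : ∀ m, m₀ ≤ m → Uniq w m) {k : ℕ} (hk : 0 < k) (hns : ∀ N, ¬ Sgl w k m₀ N) (m : ℕ) :
    2 * (m + 1) ≤ qcpx w k m := by
  classical
  obtain ⟨N, hN⟩ := exists_late hb m
  have hmul : ∀ i₀, N ≤ i₀ → ∃ i, N ≤ i ∧ fac w m i = fac w m i₀ ∧ i % k ≠ i₀ % k := by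
    intro i₀ hi₀
    by_contra hcon
    push Not at hcon
    exact hns N (sgl_of_single hb hn hU (hN i₀ hi₀) hcon)
  choose g hg1 hg2 hg3 using hmul
  set v : ℕ → ℕ := fun i => w (N + i) with hv
  have hvb : ∀ i, v i < b := fun i => hb _
  have hvn : NEP v := by
    intro M T hT
    obtain ⟨i, hi, hne⟩ := hn (N + M) T hT
    refine ⟨i - N, by omega, ?_⟩
    simp only [hv]
    rw [show N + (i - N + T) = i + T by omega, show N + (i - N) = i by omega]
    exact hne
  have hvf : ∀ i, fac v m i = fac w m (N + i) := by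
    intro i
    funext j
    simp only [fac, hv]
    rw [Nat.add_assoc]
  have hc := cpx_ge hvb hvn m
  -- choose positions
  have hpos : ∀ f : Set.range (fac v m), ∃ i, fac v m i = f.1 := fun f => f.2
  choose q hq using hpos
  have hfin := fin_crange hb hk m
  haveI : Finite (Set.range (cfac w k m)) := hfin.to_subtype
  haveI : Finite (Set.range (fac v m)) := (fin_range hvb m).to_subtype
  let Φ : Set.range (fac v m) × Bool → Set.range (cfac w k m) := fun p =>
    if p.2 then ⟨cfac w k m (N + q p.1), ⟨_, rfl⟩⟩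
    else ⟨cfac w k m (g (N + q p.1) (by omega)), ⟨_, rfl⟩⟩
  have hΦ : Function.Injective Φ := by
    rintro ⟨f, x⟩ ⟨f', x'⟩ h
    have hsnd : ∀ p : Set.range (fac v m) × Bool, (Φ p).1.2 = p.1.1 := by
      rintro ⟨f, x⟩
      cases x
      · simp only [Φ, cfac]
        simp only [Bool.false_eq_true, if_false]
        rw [hg2, ← hvf, hq]
      · simp only [Φ, cfac]
        simp only [if_true]
        rw [← hvf, hq]
    have hff : f = f' := by
      apply Subtype.ext
      have h1 := hsnd (f, x)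
      have h2 := hsnd (f', x')
      rw [h] at h1
      exact h1.symm.trans h2
    subst hff
    cases x <;> cases x'
    · rfl
    · exfalso
      have := congrArg (fun z => z.1.1) h
      simp only [Φ, cfac, Bool.false_eq_true, if_false, if_true] at this
      exact hg3 _ _ this
    · exfalso
      have := congrArg (fun z => z.1.1) h
      simp only [Φ, cfac, Bool.false_eq_true, if_false, if_true] at this
      exact hg3 _ _ this.symm
    · rfl
  have hle := Nat.card_le_card_of_injective Φ hΦ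
  rw [Nat.card_prod, Nat.card_coe_set_eq, Nat.card_coe_set_eq] at hle
  have hbool : Nat.card Bool = 2 := by simp
  rw [hbool] at hle
  unfold qcpx
  unfold cpx at hc
  omega

theorem qcpx_le {w : ℕ → ℕ} {b : ℕ} (hb : ∀ i, w i < b) {k m₀ N : ℕ}
    (hs : Sgl w k m₀ N) {m : ℕ} (hm : m₀ ≤ m) :
    qcpx w k m ≤ cpx w m + N := by
  classical
  have hsub : Set.range (cfac w k m) ⊆
      (cfac w k m '' Set.Iio N) ∪ (cfac w k m '' Set.Ici N) := by
    rintro f ⟨i, rfl⟩
    rcases lt_or_ge i N with h | h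
    · exact Or.inl ⟨i, h, rfl⟩
    · exact Or.inr ⟨i, h, rfl⟩
  have hinj : Set.InjOn (Prod.snd : ℕ × (Fin m → ℕ) → (Fin m → ℕ)) (cfac w k m '' Set.Ici N) := by
    rintro _ ⟨i, hi, rfl⟩ _ ⟨j, hj, rfl⟩ h
    have h1 : fac w m i = fac w m j := h
    have h2 := hs i j hi hj (fac_mono hm h1)
    simp only [cfac]
    rw [h1, h2]
  have himg : Prod.snd '' (cfac w k m '' Set.Ici N) ⊆ Set.range (fac w m) := by
    rintro _ ⟨_, ⟨i, _, rfl⟩, rfl⟩
    exact ⟨i, rfl⟩
  have hfin2 : (cfac w k m '' Set.Ici N).Finite := by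
    apply Set.Finite.of_finite_image _ hinj
    exact (fin_range hb m).subset himg
  have h1 : (cfac w k m '' Set.Ici N).ncard ≤ cpx w m := by
    rw [← Set.ncard_image_of_injOn hinj]
    exact Set.ncard_le_ncard himg (fin_range hb m)
  have h2 : (cfac w k m '' Set.Iio N).ncard ≤ N := by
    refine (Set.ncard_image_le (Set.finite_Iio N)).trans ?_
    rw [Set.ncard_eq_toFinset_card']
    simp
  have hfin1 : (cfac w k m '' Set.Iio N).Finite := (Set.finite_Iio N).image _
  calc qcpx w k m ≤ ((cfac w k m '' Set.Iio N) ∪ (cfac w k m '' Set.Ici N)).ncard :=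
        Set.ncard_le_ncard hsub (hfin1.union hfin2)
    _ ≤ (cfac w k m '' Set.Iio N).ncard + (cfac w k m '' Set.Ici N).ncard :=
        Set.ncard_union_le _ _
    _ ≤ cpx w m + N := by omega

end Pool.Agent.Lib_helper53.PIB
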